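import Pool.Agent.Mg.F56e4d4.G6e7c47

open Filter Topology
open scoped MatrixGroups

namespace Pool.Agent.Results.MP_56e4d4_pr.Continuity

open Pool.Agent.MP_56e4d4_pr

/-- With a bounded number of generators the asymptotic entropies converge. -/
theorem result (Γs : ℕ → Subgroup PSL(2, ℝ)) (Γ : Subgroup PSL(2, ℝ))
    (Ss : ℕ → Finset PSL(2, ℝ)) (S : Finset PSL(2, ℝ))
    (μs : ℕ → PMF PSL(2, ℝ)) (μ : PMF PSL(2, ℝ))
    (hdata : IsData Γs Γ Ss S μs μ) (hbdd : ∃ N : ℕ, ∀ n, (Ss n).card ≤ N) :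
    Tendsto (fun n => avez (μs n)) atTop (𝓝 (avez μ)) := by
  obtain ⟨N, hN⟩ := hbdd
  exact tendsto_order.mpr ⟨fun _ hc => avez_lower hdata hc, fun _ hc => avez_upper hdata hN hc⟩

end Pool.Agent.Results.MP_56e4d4_pr.Continuity
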