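import Pool.Agent.Mg.F56e4d4.G659587

open Filter Topology
open scoped MatrixGroups

namespace Pool.Agent.Results.MP_56e4d4_pr.Counterexample

open Pool.Agent.MP_56e4d4_pr

/-- There are data with all groups lattices, symmetric measures of full support on the
generating sets, and asymptotic entropies tending to infinity. -/
theorem result : ∃ (Γs : ℕ → Subgroup PSL(2, ℝ)) (Γ : Subgroup PSL(2, ℝ))
    (Ss : ℕ → Finset PSL(2, ℝ)) (S : Finset PSL(2, ℝ))
    (μs : ℕ → PMF PSL(2, ℝ)) (μ : PMF PSL(2, ℝ)),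
    IsData Γs Γ Ss S μs μ ∧ IsLattice Γ ∧ (∀ n, IsLattice (Γs n)) ∧
    (∀ n, (μs n).support = (Ss n : Set PSL(2, ℝ))) ∧ μ.support = (S : Set PSL(2, ℝ)) ∧
    (∀ n g, μs n g⁻¹ = μs n g) ∧ (∀ g, μ g⁻¹ = μ g) ∧
    Tendsto (fun n => avez (μs n)) atTop atTop ∧
    ¬ Tendsto (fun n => avez (μs n)) atTop (𝓝 (avez μ)) := by
  obtain ⟨Ss, S, μs, μ, h1, h2, h3, h4, h5, h6⟩ := counterexample
  exact ⟨_, _, Ss, S, μs, μ, h1, isLattice_modular, fun _ => isLattice_modular, h2, h3, h4, h5,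
    h6, not_tendsto_nhds_of_tendsto_atTop h6 _⟩

end Pool.Agent.Results.MP_56e4d4_pr.Counterexample
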