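import Pool.Agent.Mg.F56e4d4.G6e7c47

open Filter Topology
open scoped MatrixGroups

namespace Pool.Agent.Results.MP_56e4d4_pr.LowerSemicontinuity

open Pool.Agent.MP_56e4d4_pr

/-- The asymptotic entropy is lower semicontinuous for all data. -/
theorem result (Γs : ℕ → Subgroup PSL(2, ℝ)) (Γ : Subgroup PSL(2, ℝ))
    (Ss : ℕ → Finset PSL(2, ℝ)) (S : Finset PSL(2, ℝ))
    (μs : ℕ → PMF PSL(2, ℝ)) (μ : PMF PSL(2, ℝ))
    (hdata : IsData Γs Γ Ss S μs μ) (ε : ℝ) (hε : 0 < ε) :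
    ∀ᶠ n in atTop, avez μ - ε < avez (μs n) :=
  avez_lower hdata (sub_lt_self _ hε)

end Pool.Agent.Results.MP_56e4d4_pr.LowerSemicontinuity
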